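import Mathlib

/-!
Entropy weights of a finite set of functions (elementary form, induction by slices).
-/

namespace Pool.Agent.H39.Fr.Ent

open Finset

variable {ι α : Type*} [Fintype ι] [DecidableEq ι] [DecidableEq α]

/-- the coordinates outside `A` are hidden -/
def mask (A : Finset ι) (x : ι → α) : ι → Option α :=
  fun i => if i ∈ A then some (x i) else none

theorem jensen {κ : Type*} (C : Finset κ) (p q : κ → ℝ) (hp : ∀ c ∈ C, 0 < p c)
    (hq : ∀ c ∈ C, 0 < q c) (h1 : ∑ c ∈ C, p c = 1) :
    ∑ c ∈ C, p c * Real.log (q c / p c) ≤ Real.log (∑ c ∈ C, q c) := by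
  have h := strictConcaveOn_log_Ioi.concaveOn.le_map_sum (t := C) (w := p)
    (p := fun c => q c / p c) (fun c hc => (hp c hc).le) h1
    (fun c hc => by
      have := div_pos (hq c hc) (hp c hc)
      exact this)
  have e : ∑ c ∈ C, p c • (q c / p c) = ∑ c ∈ C, q c := by
    refine Finset.sum_congr rfl fun c hc => ?_
    have := (hp c hc).ne'
    simp only [smul_eq_mul]
    field_simp
  rw [e] at h
  simpa [smul_eq_mul] using h

theorem aux (S : Finset ι) : ∀ D : Finset (ι → α), D.Nonempty →
    (∀ x ∈ D, ∀ y ∈ D, (∀ i ∈ S, x i = y i) → x = y) →
    ∃ w : ι → ℝ, (∀ m, 0 ≤ w m) ∧ (∀ m, m ∉ S → w m = 0) ∧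
      ∑ m ∈ S, w m = Real.log D.card ∧
      ∀ A : Finset ι, ∑ m ∈ A, w m ≤ Real.log (D.image (mask A)).card := by
  induction S using Finset.induction_on with
  | empty =>
    intro D hD hinj
    obtain ⟨x, hx⟩ := hD
    have hD1 : D = {x} := by
      ext y
      simp only [Finset.mem_singleton]
      constructor
      · intro hy
        exact hinj y hy x hx (by simp)
      · rintro rfl
        exact hx
    refine ⟨fun _ => 0, fun _ => le_rfl, fun _ _ => rfl, ?_, ?_⟩
    · simp [hD1]
    · intro A
      simp only [Finset.sum_const_zero]
      apply Real.log_natCast_nonneg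
  | insert a S ha ih =>
    intro D hD hinj
    have hDpos : (0 : ℝ) < D.card := by exact_mod_cast hD.card_pos
    set C := D.image (fun x => x a) with hC
    have hsl : ∀ c ∈ C, (D.filter (fun x => x a = c)).Nonempty := by
      intro c hc
      obtain ⟨x, hx, rfl⟩ := Finset.mem_image.1 hc
      exact ⟨x, Finset.mem_filter.2 ⟨hx, rfl⟩⟩
    have hslice : ∀ c ∈ C, ∃ w : ι → ℝ, (∀ m, 0 ≤ w m) ∧ (∀ m, m ∉ S → w m = 0) ∧
        ∑ m ∈ S, w m = Real.log (D.filter (fun x => x a = c)).card ∧
        ∀ A : Finset ι, ∑ m ∈ A, w m ≤
          Real.log ((D.filter (fun x => x a = c)).image (mask A)).card := by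
      intro c hc
      refine ih _ (hsl c hc) ?_
      intro x hx y hy hxy
      rw [Finset.mem_filter] at hx hy
      refine hinj x hx.1 y hy.1 ?_
      intro i hi
      rcases Finset.mem_insert.1 hi with rfl | hi
      · rw [hx.2, hy.2]
      · exact hxy i hi
    choose! w hw0 hwS hwsum hwA using hslice
    -- the probabilities of the slices
    set p : α → ℝ := fun c => ((D.filter (fun x => x a = c)).card : ℝ) / D.card with hp
    have hppos : ∀ c ∈ C, 0 < p c := by
      intro c hc
      have : (0 : ℝ) < (D.filter (fun x => x a = c)).card := by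
        exact_mod_cast (hsl c hc).card_pos
      exact div_pos this hDpos
    have hcard : (D.card : ℝ) = ∑ c ∈ C, ((D.filter (fun x => x a = c)).card : ℝ) := by
      have := Finset.card_eq_sum_card_image (fun x : ι → α => x a) D
      exact_mod_cast this
    have hpsum : ∑ c ∈ C, p c = 1 := by
      simp only [hp]
      rw [← Finset.sum_div, ← hcard]
      exact div_self hDpos.ne'
    have hple : ∀ c ∈ C, p c ≤ 1 := by
      intro c hc
      rw [← hpsum]
      exact Finset.single_le_sum (fun c hc => (hppos c hc).le) hc
    set H : ℝ := ∑ c ∈ C, p c * (-Real.log (p c)) with hH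
    have hHpos : 0 ≤ H := by
      refine Finset.sum_nonneg fun c hc => mul_nonneg (hppos c hc).le ?_
      have := Real.log_nonpos (hppos c hc).le (hple c hc)
      linarith
    set v : ι → ℝ := fun m => (∑ c ∈ C, p c * w c m) + if m = a then H else 0 with hv
    have hsumv : ∀ A : Finset ι, ∑ m ∈ A, v m =
        (∑ c ∈ C, p c * ∑ m ∈ A, w c m) + if a ∈ A then H else 0 := by
      intro A
      simp only [hv]
      rw [Finset.sum_add_distrib, Finset.sum_comm]
      congr 1
      · refine Finset.sum_congr rfl fun c _ => ?_
        rw [Finset.mul_sum]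
      · rw [Finset.sum_ite_eq' A a (fun _ => H)]
    refine ⟨v, ?_, ?_, ?_, ?_⟩
    · intro m
      simp only [hv]
      refine add_nonneg ?_ ?_
      · exact Finset.sum_nonneg fun c hc => mul_nonneg (hppos c hc).le (hw0 c hc m)
      · split_ifs
        · exact hHpos
        · exact le_rfl
    · intro m hm
      rw [Finset.mem_insert, not_or] at hm
      simp only [hv, if_neg hm.1, add_zero]
      refine Finset.sum_eq_zero fun c hc => ?_
      rw [hwS c hc m hm.2, mul_zero]
    · rw [hsumv, if_pos (Finset.mem_insert_self a S), hH, ← Finset.sum_add_distrib]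
      have : ∀ c ∈ C, p c * ∑ m ∈ insert a S, w c m + p c * (-Real.log (p c)) =
          p c * Real.log D.card := by
        intro c hc
        rw [Finset.sum_insert ha, hwS c hc a ha, zero_add, hwsum c hc]
        have hc0 : ((D.filter (fun x => x a = c)).card : ℝ) ≠ 0 := by
          have := (hsl c hc).card_pos
          positivity
        have : Real.log (p c) = Real.log (D.filter (fun x => x a = c)).card
            - Real.log D.card := by
          simp only [hp]
          rw [Real.log_div hc0 hDpos.ne']
        rw [this]
        ring
      rw [Finset.sum_congr rfl this, ← Finset.sum_mul, hpsum, one_mul]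
    · intro A
      rw [hsumv]
      have hDim : (0 : ℝ) < (D.image (mask A)).card := by
        exact_mod_cast (hD.image _).card_pos
      by_cases haA : a ∈ A
      · rw [if_pos haA, hH, ← Finset.sum_add_distrib]
        set q : α → ℝ := fun c =>
          (((D.filter (fun x => x a = c)).image (mask A)).card : ℝ) with hq
        have hqpos : ∀ c ∈ C, 0 < q c := by
          intro c hc
          have := ((hsl c hc).image (mask A)).card_pos
          simp only [hq]
          exact_mod_cast this
        have h1 : ∑ c ∈ C, (p c * ∑ m ∈ A, w c m + p c * (-Real.log (p c))) ≤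
            ∑ c ∈ C, p c * Real.log (q c / p c) := by
          refine Finset.sum_le_sum fun c hc => ?_
          rw [Real.log_div (hqpos c hc).ne' (hppos c hc).ne', ← mul_add]
          have := hwA c hc A
          refine mul_le_mul_of_nonneg_left ?_ (hppos c hc).le
          simp only [hq]
          linarith
        have h2 := jensen C p q hppos hqpos hpsum
        have h3 : ∑ c ∈ C, q c = (D.image (mask A)).card := by
          have hbi : D.image (mask A) =
              C.biUnion (fun c => (D.filter (fun x => x a = c)).image (mask A)) := by
            ext y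
            simp only [Finset.mem_image, Finset.mem_biUnion, Finset.mem_filter, hC]
            constructor
            · rintro ⟨x, hx, rfl⟩
              exact ⟨x a, ⟨x, hx, rfl⟩, x, ⟨hx, rfl⟩, rfl⟩
            · rintro ⟨c, -, x, ⟨hx, -⟩, rfl⟩
              exact ⟨x, hx, rfl⟩
          rw [hbi, Finset.card_biUnion]
          · simp only [hq, Nat.cast_sum]
          · intro c _ c' _ hcc
            rw [Function.onFun, Finset.disjoint_left]
            intro y hy hy'
            simp only [Finset.mem_image, Finset.mem_filter] at hy hy'
            obtain ⟨x, ⟨-, hxc⟩, rfl⟩ := hy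
            obtain ⟨x', ⟨-, hxc'⟩, hxx⟩ := hy'
            have := congrFun hxx a
            simp only [mask, if_pos haA, Option.some.injEq] at this
            exact hcc (by rw [← hxc, ← hxc', this])
        rw [h3] at h2
        exact h1.trans h2
      · rw [if_neg haA, add_zero]
        calc ∑ c ∈ C, p c * ∑ m ∈ A, w c m
            ≤ ∑ c ∈ C, p c * Real.log (D.image (mask A)).card := by
              refine Finset.sum_le_sum fun c hc => ?_
              refine mul_le_mul_of_nonneg_left ?_ (hppos c hc).le
              refine (hwA c hc A).trans ?_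
              apply Real.log_le_log
              · exact_mod_cast ((hsl c hc).image (mask A)).card_pos
              · exact_mod_cast Finset.card_le_card
                  (Finset.image_subset_image (Finset.filter_subset _ _))
          _ = Real.log (D.image (mask A)).card := by
              rw [← Finset.sum_mul, hpsum, one_mul]

/-- Every nonempty finite set `D` of functions on a finite index set has nonnegative weights with
total `log |D|` such that the weight of every set `A` of indices is at most the logarithm of the
number of restrictions of members of `D` to `A`. -/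
theorem exists_weights (D : Finset (ι → α)) (hD : D.Nonempty) :
    ∃ w : ι → ℝ, (∀ m, 0 ≤ w m) ∧ ∑ m, w m = Real.log D.card ∧
      ∀ A : Finset ι, ∑ m ∈ A, w m ≤ Real.log (D.image (mask A)).card := by
  obtain ⟨w, h0, -, hs, hA⟩ := aux Finset.univ D hD
    (fun x _ y _ h => funext fun i => h i (Finset.mem_univ i))
  exact ⟨w, h0, hs, hA⟩

end Pool.Agent.H39.Fr.Ent
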