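import Mathlib

set_option autoImplicit false

namespace Pool.Agent.H39.Fr

/-- The number of subsets of at most `b` elements of a set of `k b` elements. -/
theorem sum_choose_le (k b : ℕ) (hk : 1 ≤ k) :
    (∑ i ∈ Finset.range (b + 1), ((k * b).choose i : ℝ)) ≤ (Real.exp 1 * k) ^ b := by
  have hk0 : (0 : ℝ) < k := by exact_mod_cast hk
  have hk1 : (1 : ℝ) ≤ k := by exact_mod_cast hk
  have hbn : b ≤ k * b := Nat.le_mul_of_pos_left b hk
  have h1 : (∑ i ∈ Finset.range (b + 1), ((k * b).choose i : ℝ)) ≤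
      ∑ i ∈ Finset.range (b + 1), (k : ℝ) ^ b * ((1 / (k : ℝ)) ^ i * ((k * b).choose i : ℝ)) := by
    refine Finset.sum_le_sum fun i hi => ?_
    have hib : i ≤ b := Nat.lt_succ_iff.1 (Finset.mem_range.1 hi)
    have h2 : (1 : ℝ) ≤ (k : ℝ) ^ b * (1 / (k : ℝ)) ^ i := by
      have h3 : (k : ℝ) ^ b * (1 / (k : ℝ)) ^ i = (k : ℝ) ^ (b - i) := by
        rw [one_div, inv_pow, ← div_eq_mul_inv, pow_sub₀ _ hk0.ne' hib, div_eq_mul_inv]
      rw [h3]
      exact one_le_pow₀ hk1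
    calc ((k * b).choose i : ℝ) = 1 * ((k * b).choose i : ℝ) := (one_mul _).symm
      _ ≤ ((k : ℝ) ^ b * (1 / (k : ℝ)) ^ i) * ((k * b).choose i : ℝ) :=
          mul_le_mul_of_nonneg_right h2 (Nat.cast_nonneg _)
      _ = _ := by ring
  have h4 : ∑ i ∈ Finset.range (b + 1), (k : ℝ) ^ b * ((1 / (k : ℝ)) ^ i * ((k * b).choose i : ℝ)) ≤
      (k : ℝ) ^ b * (1 / (k : ℝ) + 1) ^ (k * b) := by
    rw [← Finset.mul_sum]
    refine mul_le_mul_of_nonneg_left ?_ (by positivity)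
    rw [add_pow]
    calc ∑ i ∈ Finset.range (b + 1), (1 / (k : ℝ)) ^ i * ((k * b).choose i : ℝ)
        ≤ ∑ i ∈ Finset.range (k * b + 1), (1 / (k : ℝ)) ^ i * ((k * b).choose i : ℝ) := by
          refine Finset.sum_le_sum_of_subset_of_nonneg ?_ fun i _ _ => by positivity
          exact Finset.range_mono (by omega)
      _ = _ := by
          refine Finset.sum_congr rfl fun i _ => ?_
          rw [one_pow, mul_one]
  have h5 : (1 / (k : ℝ) + 1) ^ (k * b) ≤ Real.exp 1 ^ b := by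
    rw [pow_mul]
    refine pow_le_pow_left₀ (by positivity) ?_ b
    calc (1 / (k : ℝ) + 1) ^ k ≤ (Real.exp (1 / (k : ℝ))) ^ k :=
          pow_le_pow_left₀ (by positivity) (Real.add_one_le_exp _) k
      _ = Real.exp 1 := by
          rw [← Real.exp_nat_mul]
          congr 1
          field_simp
  calc _ ≤ _ := h1
    _ ≤ _ := h4
    _ ≤ (k : ℝ) ^ b * Real.exp 1 ^ b := mul_le_mul_of_nonneg_left h5 (by positivity)
    _ = _ := by rw [mul_pow, mul_comm]

end Pool.Agent.H39.Fr
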