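import Pool.Agent.H39.Fr.Lat
import Pool.Agent.H38.BR.Core

/-!
Finite lattices with few maximal join-irreducible elements: final assembly.
-/

namespace Pool.Agent.H39.Fr.Fin

open Finset Pool.Agent.H39.Fr.Ent Pool.Agent.H39.Fr.Lat

/-- in a finite lattice the meets with the maximal join-irreducibles determine an element -/
theorem le_of_inf_le {L : Type*} [Lattice L] [Finite L] [Nonempty L] (x y : L)
    (h : ∀ a : L, Maximal SupIrred a → x ⊓ a ≤ y) : x ≤ y := by
  classical
  have := Fintype.ofFinite L
  let _ : OrderBot L := Fintype.toOrderBot L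
  obtain ⟨s, hs, hirr⟩ := exists_supIrred_decomposition x
  rw [← hs]
  refine Finset.sup_le fun b hb => ?_
  have hbx : b ≤ x := by
    rw [← hs]
    exact Finset.le_sup (f := id) hb
  obtain ⟨a, hba, ha⟩ := (Set.toFinite {j : L | SupIrred j}).exists_le_maximal (hirr hb)
  exact (le_inf hbx hba).trans (h a ha)

/-- a finite lattice with at least two elements has a maximal join-irreducible element -/
theorem exists_maximal {L : Type*} [Lattice L] [Finite L] (hL : 2 ≤ Nat.card L) :
    ∃ a : L, Maximal SupIrred a := by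
  by_contra hcon
  push Not at hcon
  have hpos : 0 < Nat.card L := by omega
  have : Nonempty L := (Nat.card_pos_iff.1 hpos).1
  have hle : ∀ x y : L, x ≤ y := fun x y => le_of_inf_le x y fun a ha => absurd ha (hcon a)
  have hsub : Subsingleton L := ⟨fun x y => le_antisymm (hle x y) (hle y x)⟩
  have := (Finite.card_le_one_iff_subsingleton (α := L)).2 hsub
  omega

/-- Some maximal join-irreducible `a` has `(2r+1)(log N - r log 2) |[a,1]| ≤ r N log N`, where
`r` is the number of the maximal join-irreducibles and `N` the number of all elements. -/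
theorem ratio (L : Type*) [Lattice L] [Finite L] (hL : 2 ≤ Nat.card L) :
    ∃ a : L, Maximal SupIrred a ∧
      (2 * (Nat.card {j : L // Maximal SupIrred j} : ℝ) + 1) *
        (Real.log (Nat.card L) - Nat.card {j : L // Maximal SupIrred j} * Real.log 2) *
          Nat.card {x : L // a ≤ x} ≤
      Nat.card {j : L // Maximal SupIrred j} * Nat.card L * Real.log (Nat.card L) := by
  classical
  have := Fintype.ofFinite L
  have hpos : 0 < Nat.card L := by omega
  have : Nonempty L := (Nat.card_pos_iff.1 hpos).1
  obtain ⟨a₀, ha₀⟩ := exists_maximal hL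
  have hne : Nonempty {j : L // Maximal SupIrred j} := ⟨⟨a₀, ha₀⟩⟩
  obtain ⟨⟨a, ha⟩, hmin⟩ := Finite.exists_min
    (fun j : {j : L // Maximal SupIrred j} => Nat.card {x : L // j.1 ≤ x})
  refine ⟨a, ha, ?_⟩
  set r := Nat.card {j : L // Maximal SupIrred j} with hr
  set u := Nat.card {x : L // a ≤ x} with hu
  let e : Fin r ≃ {j : L // Maximal SupIrred j} := (Finite.equivFin _).symm
  set j : Fin r → L := fun m => (e m).1 with hj
  have hinj : ∀ x y : L, (∀ m, x ⊓ j m = y ⊓ j m) → x = y := by
    intro x y hxy
    have key : ∀ a : L, Maximal SupIrred a → x ⊓ a = y ⊓ a := by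
      intro a ha
      have := hxy (e.symm ⟨a, ha⟩)
      simpa [hj] using this
    exact le_antisymm (le_of_inf_le x y fun a ha => by rw [key a ha]; exact inf_le_left)
      (le_of_inf_le y x fun a ha => by rw [← key a ha]; exact inf_le_left)
  obtain ⟨w, hw0, hws, hwz, hwp⟩ := exists_w j hinj
  have hN : (0 : ℝ) < Fintype.card L := by
    exact_mod_cast Fintype.card_pos
  have hc := Pool.Agent.H38.BR.core r ((u : ℝ) / Fintype.card L) (by positivity) (T j) w hw0
    (fun x => hws x) hwz hwp (by
    intro m
    rw [div_mul_cancel₀ _ hN.ne']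
    have h1 := hmin (e m)
    have h2 : Nat.card {x : L // (e m).1 ≤ x} = #{y : L | m ∈ T j y} := by
      rw [Nat.card_eq_fintype_card, Fintype.card_subtype]
      congr 1
      ext x
      simp [mem_T, hj]
    rw [← h2]
    exact_mod_cast h1)
  rw [Nat.card_eq_fintype_card (α := L)]
  have hc' := mul_le_mul_of_nonneg_left hc hN.le
  have he : (Fintype.card L : ℝ) * ((2 * r + 1) *
      ((1 - 2 * (u / Fintype.card L)) * Real.log (Fintype.card L) +
        2 * (u / Fintype.card L) * (r * Real.log 2))) =
      (2 * r + 1) * ((Fintype.card L - 2 * u) * Real.log (Fintype.card L) +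
        2 * u * (r * Real.log 2)) := by
    field_simp
  rw [he] at hc'
  nlinarith [hc']

/-- If `N > 2 ^ (r (2 r + 1))` then some maximal join-irreducible `a` has `2 |[a,1]| < N`. -/
theorem few_maximal (L : Type*) [Lattice L] [Finite L]
    (h : 2 ^ (Nat.card {j : L // Maximal SupIrred j} *
      (2 * Nat.card {j : L // Maximal SupIrred j} + 1)) < Nat.card L) :
    ∃ a : L, Maximal SupIrred a ∧ 2 * Nat.card {x : L // a ≤ x} < Nat.card L := by
  have h1 : 1 ≤ 2 ^ (Nat.card {j : L // Maximal SupIrred j} *
      (2 * Nat.card {j : L // Maximal SupIrred j} + 1)) := Nat.one_le_two_pow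
  obtain ⟨a, ha, hle⟩ := ratio L (by omega)
  refine ⟨a, ha, ?_⟩
  by_contra hcon
  rw [not_lt] at hcon
  set r := Nat.card {j : L // Maximal SupIrred j} with hr
  set u := Nat.card {x : L // a ≤ x} with hu
  set N := Nat.card L with hN
  have hN0 : (0 : ℝ) < N := by
    have : 0 < N := by omega
    exact_mod_cast this
  have hcon' : (N : ℝ) ≤ 2 * u := by exact_mod_cast hcon
  have hu0 : (0 : ℝ) < u := by linarith
  have h2 : (2 : ℝ) ^ (r * (2 * r + 1)) < N := by exact_mod_cast h
  have h3 := Real.log_lt_log (by positivity) h2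
  rw [Real.log_pow] at h3
  push_cast at h3
  have hl : 0 ≤ Real.log (N : ℝ) := Real.log_natCast_nonneg N
  have h4 : (r : ℝ) * N * Real.log N ≤ r * (2 * u) * Real.log N := by
    refine mul_le_mul_of_nonneg_right ?_ hl
    exact mul_le_mul_of_nonneg_left hcon' (by positivity)
  have h5 : ((2 * (r : ℝ) + 1) * (Real.log N - r * Real.log 2)) * u ≤
      (2 * r * Real.log N) * u := by
    calc _ ≤ _ := hle
      _ ≤ _ := h4
      _ = _ := by ring
  have h6 := le_of_mul_le_mul_right h5 hu0
  linarith

end Pool.Agent.H39.Fr.Fin
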