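import Pool.Agent.H39.Fr.Ent

/-!
Weights of the classes of a finite lattice with respect to finitely many elements `j m`.
-/

namespace Pool.Agent.H39.Fr.Lat

open Finset Pool.Agent.H39.Fr.Ent

variable {L : Type*} [Lattice L] [Fintype L] {r : ℕ}

open Classical in
/-- the indices of the members of the family `j` below `x` -/
noncomputable def T (j : Fin r → L) (x : L) : Finset (Fin r) := univ.filter (fun m => j m ≤ x)

theorem mem_T (j : Fin r → L) (x : L) (m : Fin r) : m ∈ T j x ↔ j m ≤ x := by
  simp [T]

open Classical in
theorem exists_w (j : Fin r → L) (hinj : ∀ x y : L, (∀ m, x ⊓ j m = y ⊓ j m) → x = y) :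
    ∃ w : Finset (Fin r) → Fin r → ℝ, (∀ S m, 0 ≤ w S m) ∧
      (∀ x, ∑ m, w (T j x) m = Real.log (univ.filter (fun y => T j y = T j x)).card) ∧
      (∀ x, ∀ m ∈ T j x, w (T j x) m = 0) ∧
      (∀ x y, ∑ m ∈ T j y, w (T j x) m + ∑ m ∈ T j x, w (T j y) m ≤
        Real.log (Fintype.card L)) := by
  set f : L → Fin r → L := fun y m => y ⊓ j m with hf
  set D : Finset (Fin r) → Finset (Fin r → L) :=
    fun S => (univ.filter (fun y => T j y = S)).image f with hD
  have hex : ∀ S : Finset (Fin r), ∃ w : Fin r → ℝ, (∀ m, 0 ≤ w m) ∧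
      ((D S).Nonempty → ∑ m, w m = Real.log (D S).card ∧
        ∀ A : Finset (Fin r), ∑ m ∈ A, w m ≤ Real.log ((D S).image (mask A)).card) := by
    intro S
    by_cases hS : (D S).Nonempty
    · obtain ⟨w, h0, hs, hA⟩ := exists_weights (D S) hS
      exact ⟨w, h0, fun _ => ⟨hs, hA⟩⟩
    · exact ⟨fun _ => 0, fun _ => le_rfl, fun h => absurd h hS⟩
  choose w hw0 hw using hex
  have hne : ∀ x, (D (T j x)).Nonempty := by
    intro x
    refine ⟨f x, ?_⟩
    simp only [hD]
    exact Finset.mem_image_of_mem f (by simp)
  have hfinj : Function.Injective f := by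
    intro x y hxy
    exact hinj x y (fun m => congrFun hxy m)
  refine ⟨w, hw0, ?_, ?_, ?_⟩
  · intro x
    rw [(hw _ (hne x)).1]
    simp only [hD]
    rw [Finset.card_image_of_injective _ hfinj]
  · intro x m hm
    have h1 := (hw _ (hne x)).2 {m}
    rw [Finset.sum_singleton] at h1
    have h2 : ((D (T j x)).image (mask {m})).card ≤ 1 := by
      rw [Finset.card_le_one]
      intro a ha b hb
      simp only [hD, Finset.mem_image, Finset.mem_filter, Finset.mem_univ, true_and] at ha hb
      obtain ⟨a', ⟨y, hy, rfl⟩, rfl⟩ := ha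
      obtain ⟨b', ⟨z, hz, rfl⟩, rfl⟩ := hb
      funext i
      simp only [mask, Finset.mem_singleton]
      split_ifs with hi
      · subst hi
        have hy' : j i ≤ y := by
          rw [← mem_T, hy]; exact hm
        have hz' : j i ≤ z := by
          rw [← mem_T, hz]; exact hm
        simp only [hf]
        rw [inf_eq_right.2 hy', inf_eq_right.2 hz']
      · rfl
    have h3 : Real.log (((D (T j x)).image (mask {m})).card : ℝ) ≤ 0 := by
      apply Real.log_nonpos
      · positivity
      · exact_mod_cast h2
    exact le_antisymm (h1.trans h3) (hw0 _ _)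
  · intro x y
    have h1 := (hw _ (hne x)).2 (T j y)
    have h2 := (hw _ (hne y)).2 (T j x)
    set A := (D (T j x)).image (mask (T j y)) with hA
    set B := (D (T j y)).image (mask (T j x)) with hB
    have hApos : (0 : ℝ) < A.card := by
      exact_mod_cast ((hne x).image _).card_pos
    have hBpos : (0 : ℝ) < B.card := by
      exact_mod_cast ((hne y).image _).card_pos
    have hsub : A ×ˢ B ⊆
        (univ : Finset L).image (fun z => (mask (T j y) (f z), mask (T j x) (f z))) := by
      rintro ⟨a, b⟩ hab
      rw [Finset.mem_product] at hab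
      obtain ⟨ha, hb⟩ := hab
      simp only [hA, hB, hD, Finset.mem_image, Finset.mem_filter, Finset.mem_univ,
        true_and] at ha hb
      obtain ⟨a', ⟨u, hu, rfl⟩, hau⟩ := ha
      obtain ⟨b', ⟨v, hv, rfl⟩, hbv⟩ := hb
      rw [Finset.mem_image]
      refine ⟨u ⊓ v, Finset.mem_univ _, ?_⟩
      rw [← hau, ← hbv]
      refine Prod.ext ?_ ?_
      · funext m
        simp only [mask]
        split_ifs with hm
        · have : j m ≤ v := by
            rw [← mem_T, hv]; exact hm
          simp only [hf]
          rw [inf_assoc, inf_eq_right.2 this]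
        · rfl
      · funext m
        simp only [mask]
        split_ifs with hm
        · have : j m ≤ u := by
            rw [← mem_T, hu]; exact hm
          simp only [hf]
          rw [inf_comm u v, inf_assoc, inf_eq_right.2 this]
        · rfl
    have hcard : A.card * B.card ≤ Fintype.card L := by
      rw [← Finset.card_product]
      exact (Finset.card_le_card hsub).trans (Finset.card_image_le.trans (by simp))
    calc ∑ m ∈ T j y, w (T j x) m + ∑ m ∈ T j x, w (T j y) m
        ≤ Real.log A.card + Real.log B.card := add_le_add h1 h2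
      _ = Real.log ((A.card : ℝ) * B.card) := (Real.log_mul hApos.ne' hBpos.ne').symm
      _ ≤ Real.log (Fintype.card L) := by
          apply Real.log_le_log (mul_pos hApos hBpos)
          exact_mod_cast hcard

end Pool.Agent.H39.Fr.Lat
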